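import Mathlib

/-!
# The maximum order complexity of the Zeckendorf digit parity along the squares

We show that `M(S_{Z,X^2}, N) ≥ N^{1/3} / 128` for all large `N`, so the conjectured order
`N^{1/(2d)} = N^{1/4}` (for `P = X^2`, `d = 2`) is not an upper bound.

Idea.  Let `L_k` be the Lucas numbers.  For even `k` and `j` up to about `L_k^{1/3}`,
`(L_k + j)^2 = L_{2k} + 2 j L_k + (j^2 + 2)` has its Zeckendorf digits in three separated zones, and
the Zeckendorf expansion of `2 j L_{k+1}` is the shift by one place of that of `2 j L_k`.  Hence the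
blocks of the sequence starting at `L_k` and at `L_{k+2}` agree over a length of order `L_k^{1/3}`.
A short shift register would then force the value at `L_{k+2}` to be the value at `L_{k+3}`,
but `s_Z(L_m^2)` is `3` for even `m` and `m - 1` for odd `m`.
-/

set_option autoImplicit false

namespace Pool.Agent.Results.MP_d0186b_co.ZeckSquares

open Nat

/-- `s_Z(n)`: the sum of digits (number of ones) of the Zeckendorf expansion of `n`. Mathlib's
`Nat.zeckendorf n` is the list of the indices `i ≥ 2` of the Fibonacci numbers `F_i` in the expansion. -/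
def zeckSum (n : ℕ) : ℕ := (Nat.zeckendorf n).length

/-- The sequence `S_{Z,P} = (s_Z(P(n)) mod 2)_{n ≥ 0}`. -/
noncomputable def seqZP (P : Polynomial ℤ) (n : ℕ) : ZMod 2 :=
  (zeckSum (P.eval (n : ℤ)).toNat : ZMod 2)

open Classical in
/-- The maximum order complexity `M(s, N)` (for `N ≥ 2`): if `s_0 = ... = s_{N-2}` it is `0` when also
`s_{N-1}` is this value and `N - 1` otherwise; if `s_0, ..., s_{N-2}` are not all equal, it is the
least positive `M` such that for some map `f : F_2^M → F_2` we have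
`s_{i+M} = f(s_i, ..., s_{i+M-1})` for all `i` with `i ≤ N - M - 1`. -/
noncomputable def maxOrd (s : ℕ → ZMod 2) (N : ℕ) : ℕ :=
  if ∀ i, i + 2 ≤ N → s i = s 0 then (if s (N - 1) = s 0 then 0 else N - 1)
  else sInf {M : ℕ | 0 < M ∧ ∃ f : (Fin M → ZMod 2) → ZMod 2,
    ∀ i, i + M + 1 ≤ N → s (i + M) = f (fun t => s (i + t))}

/-- Lucas numbers. -/
def luc : ℕ → ℕ
  | 0 => 2
  | 1 => 1
  | (n+2) => luc n + luc (n+1)

lemma luc_succ (n : ℕ) : luc (n+1) = fib n + fib (n+2) := by
  induction n using Nat.strong_induction_on with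
  | _ n ih =>
    match n with
    | 0 => rfl
    | 1 => rfl
    | (m+2) =>
      have h1 := ih m (by omega)
      have h2 := ih (m+1) (by omega)
      show luc (m+1) + luc (m+2) = _
      rw [h1, h2]
      have e1 : fib (m+2) = fib m + fib (m+1) := Nat.fib_add_two
      have e2 : fib (m+3) = fib (m+1) + fib (m+2) := Nat.fib_add_two
      have e3 : fib (m+2+2) = fib (m+2) + fib (m+3) := Nat.fib_add_two
      have e4 : fib (m+1+2) = fib (m+3) := rfl
      omega

/-- chain property of lists -/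
lemma isZ_append {l₁ l₂ : List ℕ} {b : ℕ} (h₁ : l₁.IsZeckendorfRep) (h₂ : l₂.IsZeckendorfRep)
    (hb : ∀ i ∈ l₁, b ≤ i) (hb2 : ∀ i ∈ l₂, i + 2 ≤ b) (hb0 : 2 ≤ b) :
    (l₁ ++ l₂).IsZeckendorfRep := by
  unfold List.IsZeckendorfRep at *
  rw [List.append_assoc, List.isChain_append]
  rw [List.isChain_append] at h₁
  refine ⟨h₁.1, h₂, ?_⟩
  intro x hx y hy
  have hx' : x ∈ l₁ := List.mem_of_mem_getLast? hx
  have hy' : y ∈ l₂ ++ [0] := List.mem_of_mem_head? hy
  rw [List.mem_append, List.mem_singleton] at hy'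
  have := hb x hx'
  rcases hy' with hy' | hy'
  · have := hb2 y hy'
    omega
  · omega

lemma zeck_mem_lt {y b : ℕ} (hy : y < fib b) : ∀ i ∈ Nat.zeckendorf y, i < b := by
  intro i hi
  have : fib i ≤ y := by
    have h1 : fib i ≤ ((Nat.zeckendorf y).map fib).sum :=
      List.single_le_sum (by simp) _ (List.mem_map_of_mem hi)
    rwa [Nat.sum_zeckendorf_fib] at h1
  by_contra hcon
  rw [not_lt] at hcon
  have := Nat.fib_mono hcon
  omega

lemma zeck_add {x y b : ℕ} (hx : ∀ i ∈ Nat.zeckendorf x, b ≤ i) (hb : 2 ≤ b) (hy : y < fib (b-1)) :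
    Nat.zeckendorf (x+y) = Nat.zeckendorf x ++ Nat.zeckendorf y := by
  have h := isZ_append (Nat.isZeckendorfRep_zeckendorf x) (Nat.isZeckendorfRep_zeckendorf y) hx
    (by
      intro i hi
      have := zeck_mem_lt hy i hi
      omega) hb
  have h2 := Nat.zeckendorf_sum_fib h
  rw [List.map_append, List.sum_append, Nat.sum_zeckendorf_fib, Nat.sum_zeckendorf_fib] at h2
  exact h2

lemma zeckSum_add {x y b : ℕ} (hx : ∀ i ∈ Nat.zeckendorf x, b ≤ i) (hb : 2 ≤ b) (hy : y < fib (b-1)) :
    zeckSum (x+y) = zeckSum x + zeckSum y := by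
  unfold zeckSum
  rw [zeck_add hx hb hy, List.length_append]

/-- shift operator -/
def shiftZ (n : ℕ) : ℕ := ((Nat.zeckendorf n).map (fun i => fib (i+1))).sum

lemma isZ_two_le {l : List ℕ} (h : l.IsZeckendorfRep) : ∀ i ∈ l, 2 ≤ i := by
  intro i hi
  unfold List.IsZeckendorfRep at h
  have : IsTrans ℕ (fun a b => b + 2 ≤ a) := ⟨fun a b c hba hcb => by omega⟩
  rw [List.isChain_iff_pairwise, List.pairwise_append] at h
  have := h.2.2 i hi 0 (by simp)
  omega

lemma isZ_shift {l : List ℕ} (h : l.IsZeckendorfRep) : (l.map (fun i => i+1)).IsZeckendorfRep := by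
  have h2 := isZ_two_le h
  unfold List.IsZeckendorfRep at *
  have : IsTrans ℕ (fun a b => b + 2 ≤ a) := ⟨fun a b c hba hcb => by omega⟩
  rw [List.isChain_iff_pairwise, List.pairwise_append] at *
  refine ⟨?_, by simp, ?_⟩
  · rw [List.pairwise_map]
    refine h.1.imp ?_
    intro a b hab
    omega
  · intro a ha b hb
    simp at hb
    subst hb
    rw [List.mem_map] at ha
    obtain ⟨c, hc, rfl⟩ := ha
    have := h2 c hc
    omega

lemma zeck_shiftZ (n : ℕ) : Nat.zeckendorf (shiftZ n) = (Nat.zeckendorf n).map (fun i => i+1) := by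
  have h := Nat.zeckendorf_sum_fib (isZ_shift (Nat.isZeckendorfRep_zeckendorf n))
  rw [List.map_map] at h
  exact h

/-! ### the shift property -/

lemma shiftZ_real (n : ℕ) : (shiftZ n : ℝ) = Real.goldenRatio * n
    + ((Nat.zeckendorf n).map (fun i => Real.goldenConj ^ i)).sum := by
  have key : ∀ l : List ℕ, (((l.map (fun i => fib (i+1))).sum : ℕ) : ℝ)
      = Real.goldenRatio * (((l.map fib).sum : ℕ) : ℝ)
        + (l.map (fun i => Real.goldenConj ^ i)).sum := by
    intro l
    induction l with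
    | nil => simp
    | cons a l ih =>
      simp only [List.map_cons, List.sum_cons, Nat.cast_add, ih]
      have := Real.fib_succ_sub_goldenRatio_mul_fib a
      linarith
  have h := key (Nat.zeckendorf n)
  rw [Nat.sum_zeckendorf_fib] at h
  exact h

/-- the inverse golden ratio -/
noncomputable def rr : ℝ := -Real.goldenConj

lemma rr_pos : 0 < rr := by unfold rr; have := Real.goldenConj_neg; linarith
lemma rr_lt_one : rr < 1 := by unfold rr; have := Real.neg_one_lt_goldenConj; linarith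
lemma rr_sq : rr^2 = 1 - rr := by
  unfold rr; have := Real.goldenConj_sq; nlinarith
lemma phi_mul_rr : Real.goldenRatio * rr = 1 := by
  unfold rr; have := Real.goldenRatio_mul_goldenConj; linarith

lemma asum_le : ∀ (l : List ℕ), l.IsZeckendorfRep → ∀ h : ℕ, (∀ i ∈ l, i ≤ h) →
    (l.map (fun i => rr ^ i)).sum ≤ rr - rr^(h+1) := by
  intro l
  induction l with
  | nil =>
    intro _ h _
    simp only [List.map_nil, List.sum_nil]
    have : rr^(h+1) ≤ rr^1 := pow_le_pow_of_le_one rr_pos.le rr_lt_one.le (by omega)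
    rw [pow_one] at this
    linarith
  | cons a l ih =>
    intro hl h hh
    have hl' : l.IsZeckendorfRep := by
      unfold List.IsZeckendorfRep at *
      rw [List.cons_append, List.isChain_cons] at hl
      exact hl.2
    have ha2 : 2 ≤ a := isZ_two_le hl a (by simp)
    have hle : ∀ i ∈ l, i ≤ a - 2 := by
      have hl2 := hl
      unfold List.IsZeckendorfRep at hl2
      have : IsTrans ℕ (fun a b => b + 2 ≤ a) := ⟨fun a b c hba hcb => by omega⟩
      rw [List.cons_append, List.isChain_iff_pairwise, List.pairwise_cons] at hl2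
      intro i hi
      have := hl2.1 i (by simp [hi])
      omega
    have h1 := ih hl' (a-2) hle
    simp only [List.map_cons, List.sum_cons]
    have h2 : rr^(h+1) ≤ rr^(a+1) :=
      pow_le_pow_of_le_one rr_pos.le rr_lt_one.le (by have := hh a (by simp); omega)
    have h3 : rr^a + rr^(a+1) = rr^(a-2+1) := by
      have e : a = (a-2) + 2 := by omega
      have : rr^(a-2+1) * (rr + rr^2) = rr^(a-2+1) := by rw [rr_sq]; ring
      calc rr^a + rr^(a+1) = rr^((a-2)+2) + rr^((a-2)+2+1) := by rw [← e]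
        _ = rr^(a-2+1) * (rr + rr^2) := by ring
        _ = rr^(a-2+1) := this
    linarith

lemma abs_psum_lt (n : ℕ) :
    |((Nat.zeckendorf n).map (fun i => Real.goldenConj ^ i)).sum| < rr := by
  have key : ∀ l : List ℕ, |(l.map (fun i => Real.goldenConj ^ i)).sum|
      ≤ (l.map (fun i => rr ^ i)).sum := by
    intro l
    induction l with
    | nil => simp
    | cons a l ih =>
      simp only [List.map_cons, List.sum_cons]
      have e : |Real.goldenConj ^ a| = rr ^ a := by
        rw [abs_pow]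
        congr 1
        unfold rr
        exact abs_of_neg Real.goldenConj_neg
      calc |Real.goldenConj ^ a + (l.map (fun i => Real.goldenConj ^ i)).sum|
          ≤ |Real.goldenConj ^ a| + |(l.map (fun i => Real.goldenConj ^ i)).sum| := abs_add_le _ _
        _ ≤ rr^a + (l.map (fun i => rr ^ i)).sum := by rw [e]; linarith
  have h1 := key (Nat.zeckendorf n)
  have h2 := asum_le (Nat.zeckendorf n) (Nat.isZeckendorfRep_zeckendorf n) (Nat.zeckendorf n).sum
    (fun i hi => List.single_le_sum (by simp) i hi)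
  have h3 : 0 < rr ^ ((Nat.zeckendorf n).sum + 1) := pow_pos rr_pos _
  linarith

lemma luc_real (n : ℕ) : (luc n : ℝ) = Real.goldenRatio^n + Real.goldenConj^n := by
  induction n using Nat.strong_induction_on with
  | _ n ih =>
    match n with
    | 0 => norm_num [luc]
    | 1 => simp only [luc, pow_one]; have := Real.goldenRatio_add_goldenConj; push_cast; linarith
    | (m+2) =>
      have h1 := ih m (by omega)
      have h2 := ih (m+1) (by omega)
      show ((luc m + luc (m+1) : ℕ) : ℝ) = _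
      push_cast
      rw [h1, h2]
      have e1 : Real.goldenRatio^(m+2) = Real.goldenRatio^m * (Real.goldenRatio + 1) := by
        rw [pow_add, Real.goldenRatio_sq]
      have e2 : Real.goldenConj^(m+2) = Real.goldenConj^m * (Real.goldenConj + 1) := by
        rw [pow_add, Real.goldenConj_sq]
      rw [e1, e2]; ring

lemma shift_luc (t m : ℕ) (ht : 1 ≤ t) (hm : m ≤ fib t) :
    shiftZ (m * luc (t+3)) = m * luc (t+4) := by
  have h1 := shiftZ_real (m * luc (t+3))
  have h2 := abs_psum_lt (m * luc (t+3))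
  set S := ((Nat.zeckendorf (m * luc (t+3))).map (fun i => Real.goldenConj ^ i)).sum with hS
  have h3 : (shiftZ (m * luc (t+3)) : ℝ) - ((m * luc (t+4) : ℕ) : ℝ)
      = m * √5 * Real.goldenConj^(t+3) + S := by
    rw [h1]
    push_cast
    rw [luc_real, luc_real, ← Real.goldenRatio_sub_goldenConj]
    have : Real.goldenRatio * Real.goldenConj = -1 := Real.goldenRatio_mul_goldenConj
    ring
  have h4 : |(m:ℝ) * √5 * Real.goldenConj^(t+3)| ≤ rr^2 := by
    have e : |Real.goldenConj ^ (t+3)| = rr ^ (t+3) := by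
      rw [abs_pow]
      congr 1
      unfold rr
      exact abs_of_neg Real.goldenConj_neg
    rw [abs_mul, e, abs_of_nonneg (by positivity)]
    have hm' : (m:ℝ) ≤ fib t := by exact_mod_cast hm
    have h5 : (fib t : ℝ) * √5 = Real.goldenRatio^t - Real.goldenConj^t := by
      rw [Real.coe_fib_eq]
      field_simp
    have h6 : (m:ℝ) * √5 ≤ Real.goldenRatio^t + rr^t := by
      have : (m:ℝ) * √5 ≤ fib t * √5 := by gcongr
      have h7 : -Real.goldenConj^t ≤ rr^t := by
        have : |Real.goldenConj^t| = rr^t := by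
          rw [abs_pow]; congr 1; unfold rr; exact abs_of_neg Real.goldenConj_neg
        rw [← this]
        exact neg_le_abs _
      linarith
    have hr : 0 < rr^(t+3) := pow_pos rr_pos _
    have h8 : (m:ℝ) * √5 * rr^(t+3) ≤ (Real.goldenRatio^t + rr^t) * rr^(t+3) := by gcongr
    have h9 : Real.goldenRatio^t * rr^t = 1 := by rw [← mul_pow, phi_mul_rr, one_pow]
    have h10 : (Real.goldenRatio^t + rr^t) * rr^(t+3) = rr^3 + rr^(2*t+3) := by
      have : Real.goldenRatio^t * rr^(t+3) = rr^3 := by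
        rw [pow_add, ← mul_assoc, h9, one_mul]
      rw [add_mul, this]
      ring
    have h11 : rr^(2*t+3) ≤ rr^4 := pow_le_pow_of_le_one rr_pos.le rr_lt_one.le (by omega)
    have h12 : rr^3 + rr^4 = rr^2 := by
      have : rr^2 * (rr + rr^2) = rr^2 := by rw [rr_sq]; ring
      linarith [this, (by ring : rr^2 * (rr + rr^2) = rr^3 + rr^4)]
    linarith
  have h5 : |(shiftZ (m * luc (t+3)) : ℝ) - ((m * luc (t+4) : ℕ) : ℝ)| < 1 := by
    rw [h3]
    calc |(m:ℝ) * √5 * Real.goldenConj^(t+3) + S| ≤ |(m:ℝ) * √5 * Real.goldenConj^(t+3)| + |S| := abs_add_le _ _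
      _ < rr^2 + rr := by linarith
      _ = 1 := by rw [rr_sq]; ring
  have h6 : |((shiftZ (m * luc (t+3)) : ℤ)) - ((m * luc (t+4) : ℕ) : ℤ)| < 1 := by
    exact_mod_cast h5
  rw [Int.abs_lt_one_iff] at h6
  omega

lemma zeck_luc_shift (t m : ℕ) (ht : 1 ≤ t) (hm : m ≤ fib t) (d : ℕ) :
    Nat.zeckendorf (m * luc (t+3+d)) = (Nat.zeckendorf (m * luc (t+3))).map (fun i => i+d) := by
  induction d with
  | zero => simp
  | succ d ih =>
    have h1 := shift_luc (t+d) m (by omega) (hm.trans (Nat.fib_mono (by omega)))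
    have e1 : t + d + 3 = t + 3 + d := by omega
    have e2 : t + d + 4 = t + 3 + (d+1) := by omega
    rw [e1, e2] at h1
    rw [← h1, zeck_shiftZ, ih, List.map_map]
    apply List.map_congr_left
    intro i _
    simp only [Function.comp]
    omega

lemma zeckSum_luc (t m : ℕ) (ht : 1 ≤ t) (hm : m ≤ fib t) (d : ℕ) :
    zeckSum (m * luc (t+3+d)) = zeckSum (m * luc (t+3)) := by
  unfold zeckSum
  rw [zeck_luc_shift t m ht hm d, List.length_map]

lemma zeck_luc_min (t m : ℕ) (ht : 1 ≤ t) (hm : m ≤ fib t) (d : ℕ) :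
    ∀ i ∈ Nat.zeckendorf (m * luc (t+3+d)), d + 2 ≤ i := by
  rw [zeck_luc_shift t m ht hm d]
  intro i hi
  rw [List.mem_map] at hi
  obtain ⟨c, hc, rfl⟩ := hi
  have := isZ_two_le (Nat.isZeckendorfRep_zeckendorf _) c hc
  omega

/-! ### squares near Lucas numbers -/

lemma luc_sq_real (k : ℕ) : ((luc k : ℝ))^2 = luc (2*k) + 2 * (-1)^k := by
  rw [luc_real, luc_real]
  have : (Real.goldenRatio * Real.goldenConj)^k = (-1)^k := by
    rw [Real.goldenRatio_mul_goldenConj]
  rw [mul_pow] at this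
  rw [← this]
  ring

lemma luc_sq_even {k : ℕ} (hk : Even k) : (luc k)^2 = luc (2*k) + 2 := by
  have h := luc_sq_real k
  rw [hk.neg_one_pow] at h
  have h' : ((luc k ^2 : ℕ) : ℝ) = ((luc (2*k) + 2 : ℕ) : ℝ) := by push_cast; linarith
  exact_mod_cast h'

lemma luc_sq_odd {k : ℕ} (hk : Odd k) : (luc k)^2 + 2 = luc (2*k) := by
  have h := luc_sq_real k
  rw [hk.neg_one_pow] at h
  have h' : ((luc k ^2 + 2 : ℕ) : ℝ) = ((luc (2*k) : ℕ) : ℝ) := by push_cast; linarith
  exact_mod_cast h'

lemma luc_two_mul {k : ℕ} (hk : 1 ≤ k) : luc (2*k) = fib (2*k+1) + fib (2*k-1) := by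
  have := luc_succ (2*k-1)
  have e1 : 2*k-1+1 = 2*k := by omega
  have e2 : 2*k-1+2 = 2*k+1 := by omega
  rw [e1, e2] at this
  omega

lemma zeck_top {k : ℕ} (hk : 2 ≤ k) :
    Nat.zeckendorf (fib (2*k+1) + fib (2*k-1)) = [2*k+1, 2*k-1] := by
  have h : List.IsZeckendorfRep [2*k+1, 2*k-1] := by
    unfold List.IsZeckendorfRep
    simp only [List.cons_append, List.nil_append, List.isChain_cons_cons, List.isChain_singleton,
      and_true]
    omega
  have := Nat.zeckendorf_sum_fib h
  simpa using this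

lemma zeckSum_block_aux {k y : ℕ} (hk : 2 ≤ k) (hy : y < fib (2*k-2)) :
    zeckSum (fib (2*k+1) + fib (2*k-1) + y) = 2 + zeckSum y := by
  have h := zeckSum_add (x := fib (2*k+1) + fib (2*k-1)) (y := y) (b := 2*k-1)
    (by rw [zeck_top hk]; intro i hi; simp at hi; omega) (by omega)
    (by have : 2*k-1-1 = 2*k-2 := by omega
        rw [this]; exact hy)
  rw [h]
  unfold zeckSum
  rw [zeck_top hk]
  rfl

lemma fib_mul_le (m n : ℕ) : fib (m+1) * fib (n+1) ≤ fib (m+n+1) := by
  rw [Nat.fib_add]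
  omega

lemma two_fib_le (q : ℕ) : 2 * fib q ≤ fib (q+2) := by
  have : fib (q+2) = fib q + fib (q+1) := Nat.fib_add_two
  have h2 : fib q ≤ fib (q+1) := Nat.fib_mono (by omega)
  omega

lemma luc_le (k : ℕ) (hk : 1 ≤ k) : luc k ≤ fib (k+2) := by
  obtain ⟨n, rfl⟩ : ∃ n, k = n+1 := ⟨k-1, by omega⟩
  rw [luc_succ]
  have e3 : fib (n+1+2) = fib (n+1) + fib (n+2) := Nat.fib_add_two
  have h2 : fib n ≤ fib (n+1) := Nat.fib_mono (by omega)
  rw [e3]; omega

lemma sq_add_two_lt {q j : ℕ} (hq : 2 ≤ q) (hj : j ≤ fib q) : j^2 + 2 < fib (2*q+1) := by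
  have h1 : fib (2*q+1) = fib (q+1)^2 + fib q^2 := Nat.fib_two_mul_add_one q
  have h2 : 2 ≤ fib (q+1) := by
    calc 2 = fib 3 := rfl
      _ ≤ fib (q+1) := Nat.fib_mono (by omega)
  have h3 : j^2 ≤ fib q^2 := by gcongr
  nlinarith

/-- three digit zones -/
lemma block_formula {k q j : ℕ} (hk : Even k) (hq : 2 ≤ q) (hkq : 3*q+5 ≤ k) (hj : j ≤ fib q) :
    zeckSum ((luc k + j)^2) = 2 + (zeckSum (2*j * luc (q+5)) + zeckSum (j^2+2)) := by
  have hexp : (luc k + j)^2 = fib (2*k+1) + fib (2*k-1) + (2*j*luc k + (j^2+2)) := by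
    have h1 := luc_sq_even hk
    rw [luc_two_mul (by omega)] at h1
    calc (luc k + j)^2 = luc k^2 + (2*j*luc k + j^2) := by ring
      _ = _ := by rw [h1]; ring
  have h2j : 2*j ≤ fib (q+2) := (by omega : 2*j ≤ 2*fib q).trans (two_fib_le q)
  have hsmall := sq_add_two_lt hq hj
  have hy : 2*j*luc k + (j^2+2) < fib (2*k-2) := by
    have h1 : 2*j*luc k ≤ fib (q+2) * fib (k+2) := Nat.mul_le_mul h2j (luc_le k (by omega))
    have h2 : fib (q+1+1) * fib (k+1+1) ≤ fib (q+1+(k+1)+1) := fib_mul_le (q+1) (k+1)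
    have h3 : fib (q+1+(k+1)+1+1) = fib (q+1+(k+1)) + fib (q+1+(k+1)+1) := Nat.fib_add_two
    have h4 : fib (2*q+1) ≤ fib (q+1+(k+1)) := Nat.fib_mono (by omega)
    have h5 : fib (q+1+(k+1)+1+1) ≤ fib (2*k-2) := Nat.fib_mono (by omega)
    have e1 : fib (q+1+1) * fib (k+1+1) = fib (q+2) * fib (k+2) := rfl
    omega
  rw [hexp, zeckSum_block_aux (by omega) hy]
  congr 1
  have hd : k = (q+2) + 3 + (k - (q+5)) := by omega
  have hmin := zeck_luc_min (q+2) (2*j) (by omega) h2j (k-(q+5))
  have hsum := zeckSum_luc (q+2) (2*j) (by omega) h2j (k-(q+5))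
  rw [← hd] at hmin hsum
  have h := zeckSum_add (x := 2*j*luc k) (y := j^2+2) (b := k-(q+5)+2) hmin (by omega)
    (lt_of_lt_of_le hsmall (Nat.fib_mono (by omega)))
  rw [h, hsum]

lemma block_eq {k q j : ℕ} (hk : Even k) (hq : 2 ≤ q) (hkq : 3*q+5 ≤ k) (hj : j ≤ fib q) :
    zeckSum ((luc k + j)^2) = zeckSum ((luc (k+2) + j)^2) := by
  rw [block_formula hk hq hkq hj, block_formula (by simpa [Nat.even_add] using hk) hq (by omega) hj]

lemma zeckSum_luc_sq_even {k : ℕ} (hk : Even k) (hk3 : 3 ≤ k) : zeckSum ((luc k)^2) = 3 := by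
  rw [luc_sq_even hk, luc_two_mul (by omega)]
  rw [zeckSum_block_aux (by omega) (by
    calc 2 < 3 := by norm_num
      _ = fib 4 := rfl
      _ ≤ fib (2*k-2) := Nat.fib_mono (by omega))]
  have : Nat.zeckendorf 2 = [3] := by
    have h : List.IsZeckendorfRep [3] := by
      unfold List.IsZeckendorfRep
      simp
    have h2 := Nat.zeckendorf_sum_fib h
    have e : (List.map fib [3]).sum = 2 := rfl
    rw [e] at h2
    exact h2
  unfold zeckSum
  rw [this]
  rfl

/-- list of even indices 2n, 2n-2, ..., 4 -/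
def evens : ℕ → List ℕ
  | 0 => []
  | (n+1) => (2*n+4) :: evens n

lemma evens_le (n : ℕ) : ∀ i ∈ evens n, i ≤ 2*n+2 := by
  induction n with
  | zero => simp [evens]
  | succ n ih =>
    intro i hi
    simp only [evens, List.mem_cons] at hi
    rcases hi with rfl | hi
    · omega
    · have := ih i hi; omega

lemma isZ_cons {a : ℕ} {l : List ℕ} (hl : l.IsZeckendorfRep) (h : ∀ i ∈ l, i + 2 ≤ a) (ha : 2 ≤ a) :
    (a :: l).IsZeckendorfRep := by
  unfold List.IsZeckendorfRep at *
  rw [List.cons_append, List.isChain_cons]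
  refine ⟨?_, hl⟩
  intro y hy
  have hy' : y ∈ l ++ [0] := List.mem_of_mem_head? hy
  rw [List.mem_append, List.mem_singleton] at hy'
  rcases hy' with hy' | hy'
  · exact h y hy'
  · omega

lemma isZ_evens (n : ℕ) : (evens n).IsZeckendorfRep := by
  induction n with
  | zero => simp [evens]
  | succ n ih =>
    refine isZ_cons ih ?_ (by omega)
    intro i hi
    have := evens_le n i hi
    omega

lemma length_evens (n : ℕ) : (evens n).length = n := by
  induction n with
  | zero => rfl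
  | succ n ih => simp [evens, ih]

lemma sum_evens (n : ℕ) : ((evens n).map fib).sum + 2 = fib (2*n+3) := by
  induction n with
  | zero => simp [evens]; rfl
  | succ n ih =>
    simp only [evens, List.map_cons, List.sum_cons]
    have : fib (2*(n+1)+3) = fib (2*n+3) + fib (2*n+4) := Nat.fib_add_two
    omega

lemma zeckSum_luc_sq_odd {k : ℕ} (hk : Odd k) (hk3 : 3 ≤ k) : zeckSum ((luc k)^2) = k - 1 := by
  have h1 := luc_sq_odd hk
  rw [luc_two_mul (by omega)] at h1
  obtain ⟨n, rfl⟩ : ∃ n, k = n + 2 := ⟨k-2, by omega⟩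
  have hz : ((2*(n+2)+1) :: evens n).IsZeckendorfRep := by
    refine isZ_cons (isZ_evens n) ?_ (by omega)
    intro i hi
    have := evens_le n i hi
    omega
  have h2 := Nat.zeckendorf_sum_fib hz
  have h3 := sum_evens n
  have e : 2*(n+2)-1 = 2*n+3 := by omega
  rw [e] at h1
  have h4 : (((2*(n+2)+1) :: evens n).map fib).sum = (luc (n+2))^2 := by
    simp only [List.map_cons, List.sum_cons]
    omega
  rw [h4] at h2
  unfold zeckSum
  rw [h2]
  simp [length_evens]


/-! ### from equal blocks to the complexity -/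

lemma seqZP_sq (n : ℕ) : seqZP (Polynomial.X ^ 2) n = (zeckSum (n ^ 2) : ZMod 2) := by
  unfold seqZP
  congr 2
  simp only [Polynomial.eval_pow, Polynomial.eval_X]
  have : ((n : ℤ) ^ 2) = ((n ^ 2 : ℕ) : ℤ) := by push_cast; ring
  rw [this, Int.toNat_natCast]

lemma zeck_one : Nat.zeckendorf 1 = [2] := by
  have h : List.IsZeckendorfRep [2] := by
    unfold List.IsZeckendorfRep
    simp
  have h2 := Nat.zeckendorf_sum_fib h
  have e : (List.map fib [2]).sum = 1 := rfl
  rw [e] at h2
  exact h2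

lemma one_le_luc (k : ℕ) : 1 ≤ luc k := by
  induction k using Nat.strong_induction_on with
  | _ n ih =>
    match n with
    | 0 => simp [luc]
    | 1 => simp [luc]
    | (m+2) =>
      have := ih m (by omega)
      show 1 ≤ luc m + luc (m+1)
      omega

lemma luc_add_two (k : ℕ) : luc (k+2) = luc k + luc (k+1) := rfl

lemma main_lower {q k N : ℕ} (hk : Even k) (hq : 2 ≤ q) (hkq : 3*q+5 ≤ k) (hN : luc (k+3) < N) :
    fib q + 2 ≤ maxOrd (seqZP (Polynomial.X ^ 2)) N := by
  set s := seqZP (Polynomial.X ^ 2) with hs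
  have hsn : ∀ n, s n = (zeckSum (n^2) : ZMod 2) := fun n => seqZP_sq n
  have hl0 := one_le_luc k
  have hl1 := one_le_luc (k+1)
  have e2 := luc_add_two k
  have e3 := luc_add_two (k+1)
  have e3' : luc (k+1+2) = luc (k+3) := rfl
  have e2' : luc (k+1+1) = luc (k+2) := rfl
  have hnot : ¬ (∀ i, i + 2 ≤ N → s i = s 0) := by
    intro h
    have h1 := h 1 (by omega)
    rw [hsn, hsn] at h1
    have a1 : zeckSum (1^2) = 1 := by
      unfold zeckSum
      rw [one_pow, zeck_one]
      rfl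
    have a0 : zeckSum (0^2) = 0 := by
      unfold zeckSum
      simp
    rw [a1, a0] at h1
    exact absurd h1 (by decide)
  unfold maxOrd
  rw [if_neg hnot]
  apply le_csInf
  · refine ⟨N, by omega, fun _ => 0, ?_⟩
    intro i hi
    omega
  · rintro M ⟨hM0, f, hf⟩
    by_contra hcon
    have hM : M ≤ fib q + 1 := by omega
    have key : ∀ t, luc (k+2) + t + 1 ≤ N → s (luc k + t) = s (luc (k+2) + t) := by
      intro t
      induction t using Nat.strong_induction_on with
      | _ t ih =>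
        intro ht
        by_cases htM : t < M
        · rw [hsn, hsn, block_eq hk hq hkq (by omega : t ≤ fib q)]
        · have h1 := hf (luc k + (t - M)) (by omega)
          have h2 := hf (luc (k+2) + (t - M)) (by omega)
          have c1 : luc k + (t - M) + M = luc k + t := by omega
          have c2 : luc (k+2) + (t - M) + M = luc (k+2) + t := by omega
          rw [c1] at h1
          rw [c2] at h2
          rw [h1, h2]
          congr 1
          funext u
          have := ih (t - M + u) (by omega) (by omega)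
          rw [← add_assoc, ← add_assoc] at this
          exact this
    have h := key (luc (k+1)) (by omega)
    have c1 : luc k + luc (k+1) = luc (k+2) := by omega
    have c2 : luc (k+2) + luc (k+1) = luc (k+3) := by omega
    rw [c1, c2, hsn, hsn, zeckSum_luc_sq_even (by simpa [Nat.even_add] using hk) (by omega),
      zeckSum_luc_sq_odd (by
        obtain ⟨m, hm⟩ := hk
        exact ⟨m+1, by omega⟩) (by omega)] at h
    obtain ⟨m, hm⟩ := hk
    have e : k + 3 - 1 = 2 * (m + 1) := by omega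
    rw [e] at h
    push_cast at h
    have h20 : (2 : ZMod 2) = 0 := by decide
    rw [h20, zero_mul] at h
    exact absurd h (by decide)

lemma fib_double_bound (n c : ℕ) (hn : 1 ≤ n) : fib (n + c) ≤ 2^c * fib n := by
  induction c with
  | zero => simp
  | succ c ih =>
    obtain ⟨m, hm⟩ : ∃ m, n + c = m + 1 := ⟨n+c-1, by omega⟩
    have h1 : fib (m+2) = fib m + fib (m+1) := Nat.fib_add_two
    have h2 : fib m ≤ fib (m+1) := Nat.fib_mono (by omega)
    have e : n + (c+1) = m + 2 := by omega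
    rw [e, h1]
    rw [hm] at ih
    calc fib m + fib (m+1) ≤ 2 * fib (m+1) := by omega
      _ ≤ 2 * (2^c * fib n) := by omega
      _ = 2^(c+1) * fib n := by ring

lemma fib_add_bound (m n : ℕ) : fib (m + n + 1) ≤ 2 * (fib (m+1) * fib (n+1)) := by
  rw [Nat.fib_add]
  have h1 : fib m ≤ fib (m+1) := Nat.fib_mono (by omega)
  have h2 : fib n ≤ fib (n+1) := Nat.fib_mono (by omega)
  have := Nat.mul_le_mul h1 h2
  omega

lemma fib_cube_bound (p : ℕ) : fib (6*p+19) ≤ 2^20 * fib (2*p+1)^3 := by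
  have h1 := fib_double_bound (6*p+1) 18 (by omega)
  have h2 := fib_add_bound (2*p) (4*p)
  have h3 := fib_add_bound (2*p) (2*p)
  have e2 : 2*p + 4*p + 1 = 6*p+1 := by ring
  have e3 : 2*p + 2*p + 1 = 4*p+1 := by ring
  have e1 : 6*p+1+18 = 6*p+19 := by ring
  rw [e1] at h1
  rw [e2] at h2
  rw [e3] at h3
  calc fib (6*p+19) ≤ 2^18 * fib (6*p+1) := h1
    _ ≤ 2^18 * (2 * (fib (2*p+1) * fib (4*p+1))) := by gcongr
    _ ≤ 2^18 * (2 * (fib (2*p+1) * (2 * (fib (2*p+1) * fib (2*p+1))))) := by gcongr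
    _ = 2^20 * fib (2*p+1)^3 := by ring

lemma luc_strict (k : ℕ) : luc (k+1) < luc (k+2) := by
  have := one_le_luc k
  have := luc_add_two k
  omega

lemma lt_luc_big (n : ℕ) : n < luc (6*n+11) := by
  induction n with
  | zero => simp [luc]
  | succ n ih =>
    have h1 := luc_strict (6*n+10)
    have h2 := luc_strict (6*n+11)
    have h3 := luc_strict (6*n+12)
    have h4 := luc_strict (6*n+13)
    have h5 := luc_strict (6*n+14)
    have h6 := luc_strict (6*n+15)
    have e : 6*(n+1)+11 = 6*n+15+2 := by ring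
    rw [e]
    have e1 : luc (6*n+10+1) = luc (6*n+11) := rfl
    have e2 : luc (6*n+10+2) = luc (6*n+11+1) := rfl
    have e3 : luc (6*n+11+2) = luc (6*n+12+1) := rfl
    have e4 : luc (6*n+12+2) = luc (6*n+13+1) := rfl
    have e5 : luc (6*n+13+2) = luc (6*n+14+1) := rfl
    have e6 : luc (6*n+14+2) = luc (6*n+15+1) := rfl
    omega

/-- the quantitative lower bound -/
lemma lower_nat {N : ℕ} (hN : luc 17 < N) :
    ∃ q : ℕ, N ≤ 2^20 * fib q ^ 3 ∧ fib q + 2 ≤ maxOrd (seqZP (Polynomial.X ^ 2)) N := by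
  -- the greatest `p` with `luc (6p+11) < N`
  classical
  have hex : ∃ p, ¬ luc (6*p+11) < N := ⟨N, by have := lt_luc_big N; omega⟩
  set p1 := Nat.find hex with hp1
  have hspec := Nat.find_spec hex
  rw [← hp1] at hspec
  have hp1pos : 2 ≤ p1 := by
    by_contra hcon
    have h01 : p1 = 0 ∨ p1 = 1 := by omega
    rcases h01 with h | h
    · rw [h] at hspec
      have h17 : luc (6*0+11) < luc 17 := by decide
      omega
    · rw [h] at hspec
      exact hspec hN
  have hmin := Nat.find_min hex (show p1 - 1 < Nat.find hex by omega)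
  rw [not_not] at hmin
  obtain ⟨p, hp⟩ : ∃ p, p1 = p + 1 := ⟨p1 - 1, by omega⟩
  have e : p1 - 1 = p := by omega
  rw [e] at hmin
  rw [hp] at hspec
  refine ⟨2*p+1, ?_, ?_⟩
  · have h1 : luc (6*p+17) ≤ fib (6*p+19) := luc_le _ (by omega)
    have h2 := fib_cube_bound p
    have e2 : 6*(p+1)+11 = 6*p+17 := by ring
    rw [e2] at hspec
    omega
  · exact main_lower (k := 6*p+8) (q := 2*p+1) ⟨3*p+4, by ring⟩ (by omega) (by omega) hmin

lemma lower_real : ∀ᶠ N : ℕ in Filter.atTop,
    (1/128 : ℝ) * (N:ℝ)^((1:ℝ)/3) ≤ (maxOrd (seqZP (Polynomial.X ^ 2)) N : ℝ) := by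
  filter_upwards [Filter.eventually_gt_atTop (luc 17)] with N hN
  obtain ⟨q, h1, h2⟩ := lower_nat hN
  have h1' : (N:ℝ) ≤ (128 * (fib q : ℝ))^3 := by
    have : (N:ℝ) ≤ 2^20 * (fib q : ℝ)^3 := by exact_mod_cast h1
    have h0 : (0:ℝ) ≤ (fib q : ℝ)^3 := by positivity
    nlinarith
  have h3 : (N:ℝ)^((1:ℝ)/3) ≤ 128 * (fib q : ℝ) := by
    have : (N:ℝ)^((1:ℝ)/3) ≤ ((128 * (fib q : ℝ))^3)^((1:ℝ)/3) :=
      Real.rpow_le_rpow (by positivity) h1' (by norm_num)
    rwa [← Real.rpow_natCast, ← Real.rpow_mul (by positivity), show ((3:ℕ):ℝ) * (1/3) = 1 by norm_num,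
      Real.rpow_one] at this
  have h2' : (fib q : ℝ) + 2 ≤ (maxOrd (seqZP (Polynomial.X ^ 2)) N : ℝ) := by exact_mod_cast h2
  linarith

/-- **Main theorem.** The maximum order complexity of `(s_Z(n^2) mod 2)_n` is at least
`N^{1/3}/128` for all large `N`; in particular the conjectured order `N^{1/(2d)}` fails. -/
theorem result :
    (∀ᶠ N : ℕ in Filter.atTop,
      (1/128 : ℝ) * (N:ℝ)^((1:ℝ)/3) ≤ (maxOrd (seqZP (Polynomial.X ^ 2)) N : ℝ)) ∧
    ¬ (∀ P : Polynomial ℤ, P.Monic → 2 ≤ P.natDegree → (∀ n : ℕ, 0 ≤ P.eval (n:ℤ)) →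
      ∃ c C : ℝ, 0 < c ∧ 0 < C ∧ ∀ᶠ N : ℕ in Filter.atTop,
        c * (N:ℝ)^(1/(2*(P.natDegree:ℝ))) ≤ (maxOrd (seqZP P) N : ℝ) ∧
        (maxOrd (seqZP P) N : ℝ) ≤ C * (N:ℝ)^(1/(2*(P.natDegree:ℝ)))) := by
  refine ⟨lower_real, ?_⟩
  intro h
  obtain ⟨c, C, hc, hC, hev⟩ := h (Polynomial.X ^ 2) (Polynomial.monic_X_pow 2)
    (by rw [Polynomial.natDegree_X_pow]) (by intro n; simp)
  rw [Polynomial.natDegree_X_pow] at hev
  have htend : Filter.Tendsto (fun N : ℕ => (N:ℝ)^((1:ℝ)/12)) Filter.atTop Filter.atTop :=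
    (tendsto_rpow_atTop (by norm_num)).comp tendsto_natCast_atTop_atTop
  obtain ⟨N, ⟨⟨hN1, hN2⟩, hN3⟩, hN4⟩ := (((hev.and lower_real).and
    (htend.eventually_gt_atTop (128 * C))).and (Filter.eventually_gt_atTop 0)).exists
  have hNpos : (0:ℝ) < (N:ℝ) := by exact_mod_cast hN4
  have h1 : (1/128 : ℝ) * (N:ℝ)^((1:ℝ)/3) ≤ C * (N:ℝ)^(1/(2*((2:ℕ):ℝ))) := hN2.trans hN1.2
  have e : (N:ℝ)^((1:ℝ)/3) = (N:ℝ)^((1:ℝ)/12) * (N:ℝ)^(1/(2*((2:ℕ):ℝ))) := by
    rw [← Real.rpow_add hNpos]
    norm_num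
  rw [e] at h1
  have hpos : 0 < (N:ℝ)^(1/(2*((2:ℕ):ℝ))) := Real.rpow_pos_of_pos hNpos _
  have h2 : (1/128 : ℝ) * (N:ℝ)^((1:ℝ)/12) ≤ C := by
    by_contra hcon
    rw [not_le] at hcon
    have := mul_lt_mul_of_pos_right hcon hpos
    linarith
  linarith

end Pool.Agent.Results.MP_d0186b_co.ZeckSquares
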